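import Mathlib

/-!
# Vertex-centroid moves reach every polygon, in particular the regular ones

Let `c i` be the centroid of the vertices other than `v i`.  The line through `v i` and the vertex
centroid is the line through `v i` and `c i`.  Alternating moves of two vertices `v i`, `v j`
act on `(v i - g, v j - g)`, where `g` is the centroid of the other vertices, through two
one-parameter groups of matrices; a commutator of conjugates of these is a transvection.  So `v i`
can be translated by every real multiple of `v j - c i` while all other vertices end where they were.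
-/

set_option autoImplicit false

namespace Pool.Agent.Results.MP_06c496_co.VertexCentroid

/-- The vertex centroid. -/
noncomputable def vcentroid {n : ℕ} (v : Fin n → ℂ) : ℂ := (∑ i, v i) / n

/-- `w` arises from `v` by one vertex-centroid move: a vertex `v i` different from the vertex
centroid is replaced by a point of the line through `v i` and the vertex centroid. -/
def Move {n : ℕ} (v w : Fin n → ℂ) : Prop :=
  ∃ i, v i ≠ vcentroid v ∧ ∃ z ∈ line[ℝ, v i, vcentroid v], w = Function.update v i z

/-- `w` arises from `v` by a finite sequence of vertex-centroid moves. -/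
def Reaches {n : ℕ} (v w : Fin n → ℂ) : Prop := Relation.ReflTransGen Move v w

/-- `v` is a simple polygon: its vertices are distinct, and two different edges meet only in common
end points. -/
def IsSimplePolygon {n : ℕ} (v : Fin n → ℂ) : Prop :=
  Function.Injective v ∧ ∀ i j, i ≠ j →
    segment ℝ (v i) (v (finRotate n i)) ∩ segment ℝ (v j) (v (finRotate n j)) ⊆
      {v i, v (finRotate n i)} ∩ {v j, v (finRotate n j)}

/-- `w` is a regular polygon with its vertices in cyclic order (in one of the two senses). -/
def IsRegularPolygon {n : ℕ} (w : Fin n → ℂ) : Prop :=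
  ∃ p q : ℂ, q ≠ 0 ∧
    ((∀ k, w k = p + q * Complex.exp (2 * Real.pi * Complex.I * (k : ℕ) / n)) ∨
      (∀ k, w k = p + q * Complex.exp (-(2 * Real.pi * Complex.I * (k : ℕ) / n))))

/-- The centroid of the vertices other than `v i`. -/
noncomputable def rc {n : ℕ} (v : Fin n → ℂ) (i : Fin n) : ℂ := ((∑ j, v j) - v i) / (n - 1)

theorem Reaches.trans {n : ℕ} {u v w : Fin n → ℂ} (h1 : Reaches u v) (h2 : Reaches v w) :
    Reaches u w := Relation.ReflTransGen.trans h1 h2

theorem reaches_base {n : ℕ} (hn : 3 ≤ n) (v : Fin n → ℂ) (i : Fin n) (t : ℝ) :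
    Reaches v (Function.update v i (v i + t • (rc v i - v i))) := by
  have hn0 : (n : ℂ) ≠ 0 := by
    have : n ≠ 0 := by omega
    exact_mod_cast this
  have hn1 : (n : ℂ) - 1 ≠ 0 := by
    intro h
    have h2 : (n : ℂ) = 1 := by linear_combination h
    have : n = 1 := by exact_mod_cast h2
    omega
  have key : rc v i - v i = ((n : ℂ) / (n - 1)) * (vcentroid v - v i) := by
    unfold rc vcentroid
    field_simp
    ring
  by_cases h : v i = vcentroid v
  · have h2 : rc v i - v i = 0 := by rw [key, h]; ring
    rw [h2, smul_zero, add_zero, Function.update_eq_self]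
    exact Relation.ReflTransGen.refl
  · refine Relation.ReflTransGen.single ⟨i, h, _, ?_, rfl⟩
    have h3 : v i + t • (rc v i - v i) =
        AffineMap.lineMap (v i) (vcentroid v) (t * ((n : ℝ) / (n - 1))) := by
      rw [AffineMap.lineMap_apply, key]
      simp only [vsub_eq_sub, vadd_eq_add, Complex.real_smul]
      push_cast
      ring
    rw [h3]
    exact AffineMap.lineMap_mem_affineSpan_pair _ _ _

/-- The two one-parameter groups. -/
noncomputable def X (l c : ℝ) (p : ℂ × ℂ) : ℂ × ℂ := (c • p.1 + ((1 - c) * l) • p.2, p.2)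

/-- The two one-parameter groups. -/
noncomputable def Y (l d : ℝ) (p : ℂ × ℂ) : ℂ × ℂ := (p.1, ((1 - d) * l) • p.1 + d • p.2)

theorem comm (l α : ℝ) (hl : l ≠ 0) (h1 : 1 - l ^ 2 ≠ 0) (hα : α ≠ 0) (a b : ℂ) :
    X l α (Y l (-l ^ 2 / (1 - l ^ 2)) (X l 2 (Y l (-l ^ 2 / (1 - l ^ 2))⁻¹
      (X l α⁻¹ (Y l (-l ^ 2 / (1 - l ^ 2)) (X l 2⁻¹ (Y l (-l ^ 2 / (1 - l ^ 2))⁻¹ (a, b)))))))) =
    (a + ((α - 1) * (1 - 2 * l ^ 2) / (2 * l)) • b, b) := by
  simp only [X, Y, Prod.mk.injEq]
  constructor
  · match_scalars <;> field_simp <;> ring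
  · match_scalars <;> field_simp <;> ring


section pair

variable {n : ℕ}

/-- The centroid of the vertices other than `v i`, `v j`. -/
noncomputable def gc (v : Fin n → ℂ) (i j : Fin n) : ℂ := ((∑ k, v k) - v i - v j) / (n - 2)

/-- The configuration with `v i`, `v j` replaced by `g + p.1`, `g + p.2`. -/
noncomputable def cf (v : Fin n → ℂ) (i j : Fin n) (p : ℂ × ℂ) : Fin n → ℂ :=
  Function.update (Function.update v i (gc v i j + p.1)) j (gc v i j + p.2)

theorem sum_update (v : Fin n → ℂ) (i : Fin n) (z : ℂ) :
    ∑ k, Function.update v i z k = (∑ k, v k) - v i + z := by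
  rw [Finset.sum_update_of_mem (Finset.mem_univ i), ← Finset.erase_eq,
    ← Finset.sum_erase_eq_sub (Finset.mem_univ i)]
  ring

theorem sum_cf (v : Fin n → ℂ) {i j : Fin n} (hij : i ≠ j) (p : ℂ × ℂ) :
    ∑ k, cf v i j p k = (∑ k, v k) - v i - v j + (gc v i j + p.1) + (gc v i j + p.2) := by
  unfold cf
  rw [sum_update, sum_update, Function.update_of_ne (Ne.symm hij)]
  ring

theorem gc_comm (v : Fin n → ℂ) (i j : Fin n) : gc v i j = gc v j i := by
  unfold gc
  ring

theorem cf_swap (v : Fin n → ℂ) {i j : Fin n} (hij : i ≠ j) (p : ℂ × ℂ) :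
    cf v i j p = cf v j i p.swap := by
  unfold cf
  rw [Function.update_comm hij, gc_comm v i j]
  rfl

theorem cf_self (v : Fin n → ℂ) (i j : Fin n) :
    cf v i j (v i - gc v i j, v j - gc v i j) = v := by
  unfold cf
  simp only [add_sub_cancel]
  rw [Function.update_eq_self, Function.update_eq_self]

theorem X_step (hn : 3 ≤ n) (v : Fin n → ℂ) {i j : Fin n} (hij : i ≠ j) (c : ℝ) (p : ℂ × ℂ) :
    Reaches (cf v i j p) (cf v i j (X (1 / ((n : ℝ) - 1)) c p)) := by
  have h := reaches_base hn (cf v i j p) i (1 - c)
  have hn1 : (n : ℂ) - 1 ≠ 0 := by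
    intro h
    have h2 : (n : ℂ) = 1 := by linear_combination h
    have : n = 1 := by exact_mod_cast h2
    omega
  have hn2 : (n : ℂ) - 2 ≠ 0 := by
    intro h
    have h2 : (n : ℂ) = 2 := by linear_combination h
    have : n = 2 := by exact_mod_cast h2
    omega
  have hi : cf v i j p i = gc v i j + p.1 := by
    unfold cf
    rw [Function.update_of_ne hij, Function.update_self]
  have hg : (∑ k, v k) - v i - v j = (n - 2) * gc v i j := by
    unfold gc
    field_simp
  have hrc : rc (cf v i j p) i = gc v i j + (1 / ((n : ℂ) - 1)) * p.2 := by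
    unfold rc
    rw [sum_cf v hij, hi, hg]
    field_simp
    ring
  have hz : cf v i j p i + (1 - c) • (rc (cf v i j p) i - cf v i j p i) =
      gc v i j + (X (1 / ((n : ℝ) - 1)) c p).1 := by
    rw [hrc, hi]
    simp only [X, Complex.real_smul]
    push_cast
    ring
  rw [hz] at h
  have h3 : Function.update (cf v i j p) i (gc v i j + (X (1 / ((n : ℝ) - 1)) c p).1) =
      cf v i j (X (1 / ((n : ℝ) - 1)) c p) := by
    unfold cf
    rw [Function.update_comm hij, Function.update_idem, Function.update_comm (Ne.symm hij)]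
    rfl
  rw [h3] at h
  exact h

theorem Y_step (hn : 3 ≤ n) (v : Fin n → ℂ) {i j : Fin n} (hij : i ≠ j) (c : ℝ) (p : ℂ × ℂ) :
    Reaches (cf v i j p) (cf v i j (Y (1 / ((n : ℝ) - 1)) c p)) := by
  have h := X_step hn v (Ne.symm hij) c p.swap
  rw [cf_swap v hij, cf_swap v hij]
  have h2 : (Y (1 / ((n : ℝ) - 1)) c p).swap = X (1 / ((n : ℝ) - 1)) c p.swap := by
    simp only [X, Y, Prod.swap]
    rw [add_comm]
  rw [h2]
  exact h

theorem l_facts (hn : 3 ≤ n) : 0 < 1 / ((n : ℝ) - 1) ∧ 1 / ((n : ℝ) - 1) ≤ 1 / 2 := by
  have hn3 : (3 : ℝ) ≤ n := by exact_mod_cast hn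
  constructor
  · apply div_pos one_pos
    linarith
  · apply one_div_le_one_div_of_le <;> linarith

theorem transvection_aux (hn : 3 ≤ n) (v : Fin n → ℂ) {i j : Fin n} (hij : i ≠ j) (α : ℝ)
    (hα : α ≠ 0) (a b : ℂ) : Reaches (cf v i j (a, b))
      (cf v i j (a + ((α - 1) * (1 - 2 * (1 / ((n : ℝ) - 1)) ^ 2) / (2 * (1 / ((n : ℝ) - 1)))) • b,
        b)) := by
  obtain ⟨h0, h1⟩ := l_facts hn
  rw [← comm (1 / ((n : ℝ) - 1)) α h0.ne' (by nlinarith) hα a b]
  refine Reaches.trans ?_ (X_step hn v hij _ _)
  refine Reaches.trans ?_ (Y_step hn v hij _ _)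
  refine Reaches.trans ?_ (X_step hn v hij _ _)
  refine Reaches.trans ?_ (Y_step hn v hij _ _)
  refine Reaches.trans ?_ (X_step hn v hij _ _)
  refine Reaches.trans ?_ (Y_step hn v hij _ _)
  refine Reaches.trans ?_ (X_step hn v hij _ _)
  exact Y_step hn v hij _ _

/-- The transvection. -/
theorem transvection (hn : 3 ≤ n) (v : Fin n → ℂ) {i j : Fin n} (hij : i ≠ j) (s : ℝ)
    (a b : ℂ) : Reaches (cf v i j (a, b)) (cf v i j (a + s • b, b)) := by
  obtain ⟨h0, h1⟩ := l_facts hn
  have h2 : 1 - 2 * (1 / ((n : ℝ) - 1)) ^ 2 ≠ 0 := by nlinarith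
  have aux : ∀ s : ℝ, 1 + 2 * (1 / ((n : ℝ) - 1)) * s / (1 - 2 * (1 / ((n : ℝ) - 1)) ^ 2) ≠ 0 →
      ∀ a, Reaches (cf v i j (a, b)) (cf v i j (a + s • b, b)) := by
    intro s hs a
    have h3 := transvection_aux hn v hij _ hs a b
    have h4 : (1 + 2 * (1 / ((n : ℝ) - 1)) * s / (1 - 2 * (1 / ((n : ℝ) - 1)) ^ 2) - 1) *
        (1 - 2 * (1 / ((n : ℝ) - 1)) ^ 2) / (2 * (1 / ((n : ℝ) - 1))) = s := by
      have h5 := h0.ne'
      rw [add_sub_cancel_left, div_mul_cancel₀ _ h2]
      generalize 1 / ((n : ℝ) - 1) = l at *
      field_simp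
    rw [h4] at h3
    exact h3
  by_cases hs : 1 + 2 * (1 / ((n : ℝ) - 1)) * s / (1 - 2 * (1 / ((n : ℝ) - 1)) ^ 2) = 0
  · have hs2 : 1 + 2 * (1 / ((n : ℝ) - 1)) * (s / 2) / (1 - 2 * (1 / ((n : ℝ) - 1)) ^ 2) ≠ 0 := by
      have : 1 + 2 * (1 / ((n : ℝ) - 1)) * (s / 2) / (1 - 2 * (1 / ((n : ℝ) - 1)) ^ 2) =
          1 / 2 + (1 + 2 * (1 / ((n : ℝ) - 1)) * s / (1 - 2 * (1 / ((n : ℝ) - 1)) ^ 2)) / 2 := by
        ring
      rw [this, hs]
      norm_num
    have h3 := (aux (s / 2) hs2 a).trans (aux (s / 2) hs2 (a + (s / 2) • b))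
    have h4 : a + (s / 2) • b + (s / 2) • b = a + s • b := by
      module
    rw [h4] at h3
    exact h3
  · exact aux s hs a

/-- `v i` can be translated by every real multiple of `v j - rc v i`. -/
theorem reaches_shift (hn : 3 ≤ n) (v : Fin n → ℂ) {i j : Fin n} (hij : i ≠ j) (s : ℝ) :
    Reaches v (Function.update v i (v i + s • (v j - rc v i))) := by
  have hn1 : (n : ℂ) - 1 ≠ 0 := by
    intro h
    have h2 : (n : ℂ) = 1 := by linear_combination h
    have : n = 1 := by exact_mod_cast h2
    omega
  have hn2 : (n : ℂ) - 2 ≠ 0 := by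
    intro h
    have h2 : (n : ℂ) = 2 := by linear_combination h
    have : n = 2 := by exact_mod_cast h2
    omega
  have h := transvection hn v hij (s * (((n : ℝ) - 2) / (n - 1))) (v i - gc v i j)
    (v j - gc v i j)
  rw [cf_self] at h
  have h2 : v j - gc v i j = (((n : ℂ) - 1) / (n - 2)) * (v j - rc v i) := by
    unfold gc rc
    field_simp
    ring
  have h3 : cf v i j (v i - gc v i j + (s * (((n : ℝ) - 2) / (n - 1))) • (v j - gc v i j),
      v j - gc v i j) = Function.update v i (v i + s • (v j - rc v i)) := by
    unfold cf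
    simp only [add_sub_cancel]
    rw [Function.update_comm hij, Function.update_eq_self]
    congr 1
    rw [h2]
    simp only [Complex.real_smul]
    push_cast
    field_simp
    ring
  rw [h3] at h
  exact h

end pair


/-! ## Planar geometry -/

/-- The determinant of two vectors of the plane. -/
def cr (a b : ℂ) : ℝ := a.re * b.im - a.im * b.re

theorem cr_smul_left (s : ℝ) (a b : ℂ) : cr (s • a) b = s * cr a b := by
  simp [cr]; ring

theorem cr_add_right (a b c : ℂ) : cr a (b + c) = cr a b + cr a c := by
  simp [cr]; ring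

/-- Cramer's rule. -/
theorem cramer (a b z : ℂ) (h : cr a b ≠ 0) :
    z = (cr z b / cr a b) • a + (cr a z / cr a b) • b := by
  apply Complex.ext
  · simp only [Complex.add_re, Complex.real_smul, Complex.re_ofReal_mul]
    rw [div_mul_eq_mul_div, div_mul_eq_mul_div, ← add_div, eq_div_iff h]
    unfold cr
    ring
  · simp only [Complex.add_im, Complex.real_smul, Complex.im_ofReal_mul]
    rw [div_mul_eq_mul_div, div_mul_eq_mul_div, ← add_div, eq_div_iff h]
    unfold cr
    ring

/-- The points are not on a line. -/
def NC {n : ℕ} (v : Fin n → ℂ) : Prop := ∃ i j k, cr (v j - v i) (v k - v i) ≠ 0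

theorem nc_of_not_collinear {n : ℕ} (v : Fin n → ℂ) (h : ¬ Collinear ℝ (Set.range v)) :
    NC v := by
  by_contra hcon
  unfold NC at hcon
  push Not at hcon
  apply h
  by_cases hall : ∀ i j, v i = v j
  · rw [collinear_iff_exists_forall_eq_smul_vadd]
    rcases isEmpty_or_nonempty (Fin n) with he | ⟨⟨i⟩⟩
    · refine ⟨0, 0, ?_⟩
      rintro _ ⟨i, rfl⟩
      exact (he.false i).elim
    · refine ⟨v i, 0, ?_⟩
      rintro _ ⟨j, rfl⟩
      refine ⟨0, ?_⟩
      rw [smul_zero, zero_vadd]
      exact hall j i
  · push Not at hall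
    obtain ⟨i, j, hij⟩ := hall
    rw [collinear_iff_of_mem (Set.mem_range_self i)]
    refine ⟨v j - v i, ?_⟩
    rintro _ ⟨k, rfl⟩
    have h1 := hcon i j k
    have hd : v j - v i ≠ 0 := sub_ne_zero.2 (Ne.symm hij)
    have h2 : 0 < (v j - v i).re ^ 2 + (v j - v i).im ^ 2 := by
      by_contra h3
      apply hd
      have h4 : (v j - v i).re = 0 := by nlinarith [sq_nonneg (v j - v i).re, sq_nonneg (v j - v i).im]
      have h5 : (v j - v i).im = 0 := by nlinarith [sq_nonneg (v j - v i).re, sq_nonneg (v j - v i).im]
      exact Complex.ext h4 h5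
    refine ⟨((v j - v i).re * (v k - v i).re + (v j - v i).im * (v k - v i).im) /
      ((v j - v i).re ^ 2 + (v j - v i).im ^ 2), ?_⟩
    rw [vadd_eq_add, ← sub_eq_iff_eq_add]
    generalize v j - v i = d at *
    generalize v k - v i = e at *
    unfold cr at h1
    apply Complex.ext
    · simp only [Complex.real_smul, Complex.re_ofReal_mul]
      field_simp
      linear_combination (-d.im) * h1
    · simp only [Complex.real_smul, Complex.im_ofReal_mul]
      field_simp
      linear_combination (d.re) * h1

/-- In a configuration which is not on a line, every vertex can be moved to every point. -/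
theorem move_anywhere {n : ℕ} (hn : 3 ≤ n) (v : Fin n → ℂ) (hv : NC v) (i : Fin n) (z : ℂ) :
    Reaches v (Function.update v i z) := by
  set c := rc v i with hc
  have hrc : ∀ y, rc (Function.update v i y) i = c := by
    intro y
    rw [hc]
    unfold rc
    rw [sum_update, Function.update_self]
    ring
  by_cases h1 : ∃ j k, j ≠ i ∧ k ≠ i ∧ cr (v j - c) (v k - c) ≠ 0
  · obtain ⟨j, k, hj, hk, hjk⟩ := h1
    have h2 := cramer _ _ (z - v i) hjk
    set s := cr (z - v i) (v k - c) / cr (v j - c) (v k - c)
    set t := cr (v j - c) (z - v i) / cr (v j - c) (v k - c)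
    have h3 := reaches_shift hn v (Ne.symm hj) s
    have h4 := reaches_shift hn (Function.update v i (v i + s • (v j - c))) (Ne.symm hk) t
    rw [hrc, Function.update_self, Function.update_of_ne hk, Function.update_idem, add_assoc,
      ← h2, add_sub_cancel] at h4
    exact h3.trans h4
  · push Not at h1
    have h2 : ∃ j, j ≠ i ∧ cr (v j - c) (v i - c) ≠ 0 := by
      by_contra h3
      push Not at h3
      have hall : ∀ a b, cr (v a - c) (v b - c) = 0 := by
        intro a b
        by_cases ha : a = i
        · by_cases hb : b = i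
          · rw [ha, hb, cr]; ring
          · have h4 := h3 b hb
            rw [ha]
            unfold cr at h4 ⊢
            linarith
        · by_cases hb : b = i
          · rw [hb]
            exact h3 a ha
          · exact h1 a b ha hb
      obtain ⟨a, b, d, habd⟩ := hv
      apply habd
      have e1 := hall b d
      have e2 := hall b a
      have e3 := hall a d
      unfold cr at *
      simp only [Complex.sub_re, Complex.sub_im] at *
      linear_combination e1 - e2 - e3
    obtain ⟨j, hj, hji⟩ := h2
    have h3 := cramer _ _ (z - c) hji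
    set s := cr (z - c) (v i - c) / cr (v j - c) (v i - c)
    set t := cr (v j - c) (z - c) / cr (v j - c) (v i - c)
    have h4 := reaches_base hn v i (1 - t)
    have h5 := reaches_shift hn (Function.update v i (v i + (1 - t) • (c - v i))) (Ne.symm hj) s
    rw [hrc, Function.update_self, Function.update_of_ne hj, Function.update_idem] at h5
    have h6 : v i + (1 - t) • (c - v i) + s • (v j - c) = z := by
      have : z = c + (s • (v j - c) + t • (v i - c)) := by rw [← h3]; ring
      rw [this]
      module
    rw [h6] at h5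
    exact h4.trans h5


/-- A point outside finitely many lines. -/
theorem exists_generic (L : Finset (ℂ × ℂ)) :
    ∃ x : ℂ, ∀ p ∈ L, p.1 ≠ p.2 → cr (p.2 - p.1) (x - p.1) ≠ 0 := by
  -- the points of a parabola
  have hfin : ∀ p : ℂ × ℂ, p.1 ≠ p.2 →
      {t : ℝ | cr (p.2 - p.1) ((⟨t, t ^ 2⟩ : ℂ) - p.1) = 0}.Finite := by
    rintro ⟨p, q⟩ hpq
    have hpq : p ≠ q := hpq
    have key : ∀ A B C : ℝ, (A ≠ 0 ∨ B ≠ 0) → {t : ℝ | A * t ^ 2 - B * t + C = 0}.Finite := by
      intro A B C hAB
      set P : Polynomial ℝ := Polynomial.C A * Polynomial.X ^ 2 -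
        Polynomial.C B * Polynomial.X + Polynomial.C C with hP
      have hev : ∀ t, P.eval t = A * t ^ 2 - B * t + C := by
        intro t
        rw [hP]
        simp only [Polynomial.eval_add, Polynomial.eval_sub, Polynomial.eval_mul,
          Polynomial.eval_C, Polynomial.eval_pow, Polynomial.eval_X]
      have hP0 : P ≠ 0 := by
        intro h0
        have c0 := hev 0
        have c1 := hev 1
        have c2 := hev (-1)
        rw [h0, Polynomial.eval_zero] at c0 c1 c2
        rcases hAB with h | h
        · apply h; linarith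
        · apply h; linarith
      refine (P.rootSet_finite ℝ).subset ?_
      intro t ht
      rw [Polynomial.mem_rootSet]
      refine ⟨hP0, ?_⟩
      rw [Polynomial.coe_aeval_eq_eval, hev]
      exact ht
    have hAB : (q - p).re ≠ 0 ∨ (q - p).im ≠ 0 := by
      by_contra hcon
      push Not at hcon
      exact hpq (sub_eq_zero.1 (Complex.ext hcon.1 hcon.2)).symm
    refine (key (q - p).re (q - p).im (-(q - p).re * p.im + (q - p).im * p.re) hAB).subset ?_
    intro t ht
    have ht : cr (q - p) ((⟨t, t ^ 2⟩ : ℂ) - p) = 0 := ht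
    show (q - p).re * t ^ 2 - (q - p).im * t + (-(q - p).re * p.im + (q - p).im * p.re) = 0
    unfold cr at ht
    simp only [Complex.sub_re, Complex.sub_im] at ht ⊢
    linear_combination ht
  have hU : (⋃ p ∈ L.filter (fun p => p.1 ≠ p.2),
      {t : ℝ | cr (p.2 - p.1) ((⟨t, t ^ 2⟩ : ℂ) - p.1) = 0}).Finite := by
    apply Set.Finite.biUnion (Finset.finite_toSet _)
    intro p hp
    rw [Finset.mem_coe, Finset.mem_filter] at hp
    exact hfin p hp.2
  obtain ⟨t, ht⟩ := hU.infinite_compl.nonempty
  refine ⟨⟨t, t ^ 2⟩, ?_⟩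
  intro p hp hne h0
  apply ht
  simp only [Set.mem_iUnion]
  exact ⟨p, Finset.mem_filter.2 ⟨hp, hne⟩, h0⟩

theorem nc_exists_ne {n : ℕ} {v : Fin n → ℂ} (hv : NC v) (a : Fin n) :
    ∃ j k, j ≠ a ∧ k ≠ a ∧ v j ≠ v k := by
  by_contra hcon
  push Not at hcon
  obtain ⟨i, j, k, h⟩ := hv
  apply h
  by_cases hi : i = a
  · by_cases hj : j = a
    · rw [hi, hj]; simp [cr]
    · by_cases hk : k = a
      · rw [hi, hk]; simp [cr]
      · rw [hcon j k hj hk]; simp only [cr]; ring
  · by_cases hj : j = a
    · by_cases hk : k = a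
      · rw [hj, hk]; simp only [cr]; ring
      · rw [hcon k i hk hi]; simp [cr]
    · rw [hcon j i hj hi]; simp [cr]

theorem nc_exists_ne' {n : ℕ} {v : Fin n → ℂ} (hv : NC v) (j : Fin n) : ∃ k, v j ≠ v k := by
  by_contra hcon
  push Not at hcon
  obtain ⟨a, b, -, -, h⟩ := nc_exists_ne hv j
  exact h ((hcon a).symm.trans (hcon b))

/-- Every configuration which is not on a line can be carried to every other one. -/
theorem reaches_of_nc {n : ℕ} (hn : 3 ≤ n) (v w : Fin n → ℂ) (hv : NC v) (hw : NC w) :
    Reaches v w := by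
  classical
  set a : Fin n := ⟨0, by omega⟩ with ha
  set b : Fin n := ⟨1, by omega⟩ with hb
  set e : Fin n := ⟨2, by omega⟩ with he
  have hab : a ≠ b := by rw [ha, hb]; intro h; exact absurd (Fin.mk.inj_iff.1 h) (by decide)
  have hea : e ≠ a := by rw [ha, he]; intro h; exact absurd (Fin.mk.inj_iff.1 h) (by decide)
  have heb : e ≠ b := by rw [he, hb]; intro h; exact absurd (Fin.mk.inj_iff.1 h) (by decide)
  obtain ⟨x, hx⟩ := exists_generic
    (Finset.univ.image (fun p : Fin n × Fin n => (v p.1, v p.2)) ∪
      Finset.univ.image (fun p : Fin n × Fin n => (w p.1, w p.2)))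
  have hxv : ∀ j k, v j ≠ v k → cr (v k - v j) (x - v j) ≠ 0 := by
    intro j k h
    exact hx (v j, v k) (Finset.mem_union_left _
      (Finset.mem_image.2 ⟨(j, k), Finset.mem_univ _, rfl⟩)) h
  have hxw : ∀ j k, w j ≠ w k → cr (w k - w j) (x - w j) ≠ 0 := by
    intro j k h
    exact hx (w j, w k) (Finset.mem_union_right _
      (Finset.mem_image.2 ⟨(j, k), Finset.mem_univ _, rfl⟩)) h
  have hxv' : ∀ j, x ≠ v j := by
    intro j h
    obtain ⟨k, hk⟩ := nc_exists_ne' hv j
    apply hxv j k hk
    rw [h]; simp [cr]
  have hxw' : ∀ j, x ≠ w j := by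
    intro j h
    obtain ⟨k, hk⟩ := nc_exists_ne' hw j
    apply hxw j k hk
    rw [h]; simp [cr]
  have ncv : NC (Function.update v a x) := by
    obtain ⟨j, k, hj, hk, hjk⟩ := nc_exists_ne hv a
    refine ⟨j, k, a, ?_⟩
    rw [Function.update_self, Function.update_of_ne hj, Function.update_of_ne hk]
    exact hxv j k hjk
  have ncw : NC (Function.update w a x) := by
    obtain ⟨j, k, hj, hk, hjk⟩ := nc_exists_ne hw a
    refine ⟨j, k, a, ?_⟩
    rw [Function.update_self, Function.update_of_ne hj, Function.update_of_ne hk]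
    exact hxw j k hjk
  obtain ⟨y, hy⟩ := exists_generic
    (Finset.univ.image (fun j : Fin n => (x, v j)) ∪ Finset.univ.image (fun j : Fin n => (x, w j)))
  have hyv : ∀ j, cr (v j - x) (y - x) ≠ 0 := fun j =>
    hy (x, v j) (Finset.mem_union_left _ (Finset.mem_image.2 ⟨j, Finset.mem_univ _, rfl⟩)) (hxv' j)
  have hyw : ∀ j, cr (w j - x) (y - x) ≠ 0 := fun j =>
    hy (x, w j) (Finset.mem_union_right _ (Finset.mem_image.2 ⟨j, Finset.mem_univ _, rfl⟩)) (hxw' j)
  -- the intermediate configurations
  set u : Finset (Fin n) → Fin n → ℂ := fun T k =>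
    if k = a then x else if k = b then y else if k ∈ T then w k else v k with hu
  have hua : ∀ T, u T a = x := fun T => by rw [hu]; simp
  have hub : ∀ T, u T b = y := fun T => by rw [hu]; simp [Ne.symm hab]
  have hnc : ∀ T, NC (u T) := by
    intro T
    refine ⟨a, e, b, ?_⟩
    rw [hua, hub]
    have : u T e = w e ∨ u T e = v e := by
      rw [hu]
      simp only [if_neg hea, if_neg heb]
      by_cases h : e ∈ T
      · left; rw [if_pos h]
      · right; rw [if_neg h]
    rcases this with h | h
    · rw [h]; exact hyw e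
    · rw [h]; exact hyv e
  have hstep : ∀ T : Finset (Fin n), Reaches (u ∅) (u T) := by
    intro T
    induction T using Finset.induction_on with
    | empty => exact Relation.ReflTransGen.refl
    | insert k T hk ih =>
      refine ih.trans ?_
      by_cases hka : k = a
      · have : u (insert k T) = u T := by
          funext j
          rw [hu]
          simp only
          by_cases hja : j = a
          · rw [if_pos hja, if_pos hja]
          · rw [if_neg hja, if_neg hja]
            have : j ∈ insert k T ↔ j ∈ T := by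
              rw [Finset.mem_insert]
              constructor
              · rintro (h | h)
                · exact absurd (h.trans hka) hja
                · exact h
              · exact Or.inr
            simp only [this]
        rw [this]
        exact Relation.ReflTransGen.refl
      · by_cases hkb : k = b
        · have : u (insert k T) = u T := by
            funext j
            rw [hu]
            simp only
            by_cases hja : j = b
            · rw [if_pos hja, if_pos hja]
            · rw [if_neg hja, if_neg hja]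
              have : j ∈ insert k T ↔ j ∈ T := by
                rw [Finset.mem_insert]
                constructor
                · rintro (h | h)
                  · exact absurd (h.trans hkb) hja
                  · exact h
                · exact Or.inr
              simp only [this]
          rw [this]
          exact Relation.ReflTransGen.refl
        · have h1 := move_anywhere hn (u T) (hnc T) k (w k)
          have : Function.update (u T) k (w k) = u (insert k T) := by
            funext j
            by_cases hjk : j = k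
            · rw [hjk, Function.update_self, hu]
              simp [hka, hkb]
            · rw [Function.update_of_ne hjk, hu]
              simp only [Finset.mem_insert, hjk, false_or]
          rw [this] at h1
          exact h1
  have hstart : Reaches v (u ∅) := by
    have h1 := move_anywhere hn v hv a x
    have h2 := move_anywhere hn _ ncv b y
    have : Function.update (Function.update v a x) b y = u ∅ := by
      funext j
      by_cases hjb : j = b
      · rw [hjb, Function.update_self, hub]
      · rw [Function.update_of_ne hjb]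
        by_cases hja : j = a
        · rw [hja, Function.update_self, hua]
        · rw [Function.update_of_ne hja, hu]
          simp [hja, hjb]
    rw [this] at h2
    exact h1.trans h2
  have hend : Reaches (u Finset.univ) w := by
    have h1 := move_anywhere hn _ (hnc Finset.univ) b (w b)
    have h2 := move_anywhere hn _ ncw a (w a)
    have e1 : Function.update (u Finset.univ) b (w b) = Function.update w a x := by
      funext j
      by_cases hjb : j = b
      · rw [hjb, Function.update_self, Function.update_of_ne (Ne.symm hab)]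
      · rw [Function.update_of_ne hjb]
        by_cases hja : j = a
        · rw [hja, Function.update_self, hua]
        · rw [Function.update_of_ne hja, hu]
          simp [hja, hjb]
    have e2 : Function.update (Function.update w a x) a (w a) = w := by
      rw [Function.update_idem, Function.update_eq_self]
    rw [e1] at h1
    rw [e2] at h2
    exact h1.trans h2
  exact hstart.trans ((hstep Finset.univ).trans hend)


/-! ## Simple polygons and regular polygons are not on a line -/

theorem nc_of_simple {n : ℕ} (hn : 3 ≤ n) (v : Fin n → ℂ) (hv : IsSimplePolygon v) : NC v := by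
  obtain ⟨m, rfl⟩ : ∃ m, n = m + 3 := ⟨n - 3, by omega⟩
  obtain ⟨hinj, hseg⟩ := hv
  by_contra hcon
  unfold NC at hcon
  push Not at hcon
  have h10 : (1 : Fin (m + 3)) ≠ 0 := by
    intro h
    have := congrArg Fin.val h
    simp at this
  set d := v 1 - v 0 with hd
  have hd0 : d ≠ 0 := fun h => h10 (hinj (sub_eq_zero.1 h))
  have hN : 0 < d.re ^ 2 + d.im ^ 2 := by
    by_contra h3
    apply hd0
    have h4 : d.re = 0 := by nlinarith [sq_nonneg d.re, sq_nonneg d.im]
    have h5 : d.im = 0 := by nlinarith [sq_nonneg d.re, sq_nonneg d.im]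
    exact Complex.ext h4 h5
  set t : Fin (m + 3) → ℝ := fun k =>
    (d.re * (v k - v 0).re + d.im * (v k - v 0).im) / (d.re ^ 2 + d.im ^ 2) with ht
  have hvt : ∀ k, v k = v 0 + t k • d := by
    intro k
    have h1 := hcon 0 1 k
    rw [← hd] at h1
    have : v k - v 0 = t k • d := by
      rw [ht]
      simp only
      generalize v k - v 0 = e at *
      unfold cr at h1
      apply Complex.ext
      · simp only [Complex.real_smul, Complex.re_ofReal_mul]
        field_simp
        linear_combination (-d.im) * h1
      · simp only [Complex.real_smul, Complex.im_ofReal_mul]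
        field_simp
        linear_combination (d.re) * h1
    rw [← this]
    ring
  have htinj : Function.Injective t := by
    intro a b hab
    apply hinj
    rw [hvt a, hvt b, hab]
  -- a point with parameter between two others is in the segment
  have hmem : ∀ a b c, t a ≤ t b → t b < t c → v b ∈ segment ℝ (v a) (v c) := by
    intro a b c hab hbc
    rw [hvt a, hvt b, hvt c]
    have hac : 0 < t c - t a := by linarith
    refine ⟨(t c - t b) / (t c - t a), (t b - t a) / (t c - t a), div_nonneg (by linarith) hac.le,
      div_nonneg (by linarith) hac.le,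
      by field_simp; ring, ?_⟩
    simp only [Complex.real_smul]
    have hac' : ((t c : ℂ) - t a) ≠ 0 := by
      have := hac.ne'
      exact_mod_cast this
    push_cast
    field_simp
    ring
  obtain ⟨i, -, hi⟩ := Finset.exists_max_image Finset.univ t ⟨0, Finset.mem_univ _⟩
  have hi' : ∀ j, j ≠ i → t j < t i := fun j hj =>
    lt_of_le_of_ne (hi j (Finset.mem_univ _)) (fun h => hj (htinj h))
  have hsucc : ∀ j : Fin (m + 3), finRotate (m + 3) j = j + 1 := fun j => finRotate_apply j
  have e1 : i + 1 ≠ i := by
    intro h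
    have : (1 : Fin (m + 3)) = 0 := by
      have := add_eq_left.1 h
      exact this
    exact h10 this
  have e2 : i - 1 ≠ i := by
    intro h
    have : (1 : Fin (m + 3)) = 0 := by
      have := sub_eq_self.1 h
      exact this
    exact h10 this
  have e3 : i + 1 ≠ i - 1 := by
    intro h
    have h2 : (1 : Fin (m + 3)) + 1 = 0 := by
      have : i + (1 + 1) = i := by rw [← add_assoc, h, sub_add_cancel]
      exact add_eq_left.1 this
    have := congrArg Fin.val h2
    simp only [Fin.val_add, Fin.val_one, Fin.val_zero] at this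
    rw [Nat.mod_eq_of_lt (by omega)] at this
    omega
  have hS := hseg (i - 1) i e2
  rw [hsucc, hsucc, sub_add_cancel] at hS
  rcases lt_or_ge (t (i - 1)) (t (i + 1)) with hlt | hge
  · have h1 := hS ⟨hmem (i - 1) (i + 1) i hlt.le (hi' _ e1), right_mem_segment _ _ _⟩
    rcases h1.1 with h | h
    · exact e3 (hinj h)
    · exact e1 (hinj h)
  · have h1 := hS ⟨left_mem_segment _ _ _, by
      rw [segment_symm]; exact hmem (i + 1) (i - 1) i hge (hi' _ e2)⟩
    rcases h1.2 with h | h
    · exact e2 (hinj h)
    · exact e3 (hinj h).symm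

theorem nc_of_regular {n : ℕ} (hn : 3 ≤ n) (w : Fin n → ℂ) (hw : IsRegularPolygon w) : NC w := by
  obtain ⟨p, q, hq, hw⟩ := hw
  -- common computation
  have key : ∀ θ : ℝ, Real.sin θ ≠ 0 → (∀ k, w k = p + q * Complex.exp ((k : ℕ) * (θ * Complex.I))) →
      NC w := by
    intro θ hθ hwk
    refine ⟨⟨0, by omega⟩, ⟨1, by omega⟩, ⟨2, by omega⟩, ?_⟩
    rw [hwk, hwk, hwk]
    simp only [Nat.cast_zero, zero_mul, Complex.exp_zero, Nat.cast_one, one_mul, Nat.cast_ofNat]
    have hz : Complex.exp (2 * (θ * Complex.I)) = Complex.exp (θ * Complex.I) ^ 2 := by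
      rw [← Complex.exp_nat_mul]
      norm_num
    rw [hz]
    have him : (Complex.exp (θ * Complex.I)).im = Real.sin θ := Complex.exp_ofReal_mul_I_im θ
    generalize Complex.exp (θ * Complex.I) = ζ at *
    have h1 : p + q * ζ - (p + q * 1) = q * (ζ - 1) := by ring
    have h2 : p + q * ζ ^ 2 - (p + q * 1) = (q * (ζ - 1)) * (ζ + 1) := by ring
    rw [h1, h2]
    have h3 : q * (ζ - 1) ≠ 0 := by
      apply mul_ne_zero hq
      intro h
      apply hθ
      have : ζ = 1 := by linear_combination h
      rw [← him, this, Complex.one_im]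
    generalize q * (ζ - 1) = a at *
    have h4 : cr a (a * (ζ + 1)) = (a.re ^ 2 + a.im ^ 2) * ζ.im := by
      simp only [cr, Complex.mul_re, Complex.mul_im, Complex.add_re, Complex.add_im,
        Complex.one_re, Complex.one_im]
      ring
    rw [h4]
    apply mul_ne_zero
    · intro h5
      apply h3
      have h6 : a.re = 0 := by nlinarith [sq_nonneg a.re, sq_nonneg a.im]
      have h7 : a.im = 0 := by nlinarith [sq_nonneg a.re, sq_nonneg a.im]
      exact Complex.ext h6 h7
    · rw [him]; exact hθ
  have hn3 : (3 : ℝ) ≤ n := by exact_mod_cast hn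
  have hn0 : (n : ℂ) ≠ 0 := by
    have : n ≠ 0 := by omega
    exact_mod_cast this
  have hsin : 0 < Real.sin (2 * Real.pi / n) := by
    apply Real.sin_pos_of_pos_of_lt_pi
    · have := Real.pi_pos
      positivity
    · rw [div_lt_iff₀ (by linarith)]
      nlinarith [Real.pi_pos]
  rcases hw with hw | hw
  · apply key (2 * Real.pi / n) hsin.ne'
    intro k
    rw [hw]
    congr 3
    push_cast
    ring
  · apply key (-(2 * Real.pi / n)) (by rw [Real.sin_neg]; exact neg_ne_zero.2 hsin.ne')
    intro k
    rw [hw]
    congr 3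
    push_cast
    ring

/-- Every simple polygon can be carried to a regular one by vertex-centroid moves.  More generally,
every polygon whose vertices are not on a line can be carried to every other such polygon. -/
theorem result :
    (∀ n : ℕ, 3 ≤ n → ∀ v : Fin n → ℂ, IsSimplePolygon v →
      ∃ w : Fin n → ℂ, IsRegularPolygon w ∧ Reaches v w) ∧
    (∀ n : ℕ, 3 ≤ n → ∀ v w : Fin n → ℂ, IsSimplePolygon v → IsRegularPolygon w → Reaches v w) ∧
    (∀ n : ℕ, 3 ≤ n → ∀ v w : Fin n → ℂ, ¬ Collinear ℝ (Set.range v) →
      ¬ Collinear ℝ (Set.range w) → Reaches v w) := by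
  refine ⟨?_, ?_, ?_⟩
  · intro n hn v hv
    have hreg : IsRegularPolygon (fun k : Fin n =>
        (0 : ℂ) + 1 * Complex.exp (2 * Real.pi * Complex.I * (k : ℕ) / n)) :=
      ⟨0, 1, one_ne_zero, Or.inl fun _ => rfl⟩
    exact ⟨_, hreg, reaches_of_nc hn _ _ (nc_of_simple hn v hv) (nc_of_regular hn _ hreg)⟩
  · intro n hn v w hv hw
    exact reaches_of_nc hn _ _ (nc_of_simple hn v hv) (nc_of_regular hn w hw)
  · intro n hn v w hv hw
    exact reaches_of_nc hn _ _ (nc_of_not_collinear v hv) (nc_of_not_collinear w hw)

end Pool.Agent.Results.MP_06c496_co.VertexCentroid
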